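import Pool.Agent.Helper23.WC.Spec

/-!
WL, part NBC: the coefficients of the universal equations at the nonbinary monomials.
-/

set_option autoImplicit false

namespace Pool.Agent.Helper95.WL.NBC

open MvPolynomial Pool.Agent.Helper23.WC

variable {N r s : ℕ}

/-- the two variables -/
def emb (N r : ℕ) : Fin 2 → Fin (N + 1 + 1) ⊕ Fin r := fun i => if i = 0 then Sum.inl 0 else Sum.inl 1

/-- binary forms in two variables -/
noncomputable def bf2 {R : Type} [CommRing R] (d : ℕ) (c : ℕ → R) : MvPolynomial (Fin 2) R :=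
  ∑ l ∈ Finset.range (d + 1), C (c l) * X 0 ^ l * X 1 ^ (d - l)

lemma rename_bf2 {R : Type} [CommRing R] (d : ℕ) (c : ℕ → R) :
    rename (emb N r) (bf2 d c) = bfm (N := N) (r := r) d c := by
  simp [bf2, bfm, emb]

lemma crv_rename {R : Type} [CommRing R] (e : Fin r → ℕ) (π : TT N r s → R) :
    ∃ h : Fin (N + 1 + 1) ⊕ Fin r → MvPolynomial (Fin 2) R,
      crv e π = fun v => rename (emb N r) (h v) := by
  refine ⟨Sum.elim (Fin.cons (X 0) (Fin.cons (X 1)
    fun j => bf2 1 fun l => π (.inl (.inl j, l)))) fun i => bf2 (e i) fun l => π (.inl (.inr i, l)),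
    ?_⟩
  funext v
  rcases v with j | i
  · refine Fin.cases ?_ (fun j => ?_) j
    · simp [crv, emb]
    · refine Fin.cases ?_ (fun j => ?_) j
      · simp [crv, emb]
      · simp only [crv, Sum.elim_inl, Fin.cons_succ]
        exact (rename_bf2 _ _).symm
  · simp only [crv, Sum.elim_inr]
    exact (rename_bf2 _ _).symm

theorem main (hF : St_FINW) : St_NBC := by
  intro N r s e D he R _ π a m hm hnb
  classical
  unfold UF
  rw [coeff_sub]
  have h1 : coeff m (bind₁ (crv e π) (Gen0 e D π a)) = 0 := by
    obtain ⟨h, hh⟩ := crv_rename e π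
    rw [hh, ← rename_bind₁]
    apply coeff_rename_eq_zero
    intro u hu
    exfalso
    obtain ⟨c, hc⟩ := hnb
    apply hc
    rw [← hu]
    apply Finsupp.mapDomain_of_notMem_range
    rintro ⟨i, hi⟩
    rcases c with j | i'
    · simp only [emb, iv, Sum.map_inl] at hi
      split_ifs at hi with h0
      · have h2 := Sum.inl.inj hi
        exact absurd h2 (Fin.succ_ne_zero _).symm
      · have h2 := Sum.inl.inj hi
        have e1 : (1 : Fin (N + 1 + 1)) = Fin.succ 0 := rfl
        rw [e1] at h2
        exact absurd (Fin.succ_injective _ h2) (Fin.succ_ne_zero _).symm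
    · simp only [emb, iv, Sum.map_inr] at hi
      split_ifs at hi
  rw [h1, sub_zero]
  unfold Gen0
  rw [coeff_sum, Finset.sum_eq_single m]
  · simp
  · intro m' _ hne
    simp [coeff_monomial, hne]
  · intro hn
    exact absurd (Finset.mem_filter.2 ⟨(hF (N + 1) r e he (D a) m).2 hm, hnb⟩) hn

end Pool.Agent.Helper95.WL.NBC
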