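import Pool.Agent.Helper23.WC.Spec

/-!
WL, part SUB: linear substitutions in binary forms.
-/

set_option autoImplicit false

namespace Pool.Agent.Helper95.WL.SUB

open Pool.Agent.Helper23.WC

variable {R : Type} [CommRing R]

/-- binary forms of degree `d` -/
def Rep (d : ℕ) (F : R → R → R) : Prop := ∃ c : ℕ → R, ∀ x y : R, bf d c x y = F x y

lemma Rep.add {d : ℕ} {F G : R → R → R} (hF : Rep d F) (hG : Rep d G) :
    Rep d fun x y => F x y + G x y := by
  obtain ⟨c, hc⟩ := hF
  obtain ⟨c', hc'⟩ := hG
  refine ⟨fun l => c l + c' l, fun x y => ?_⟩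
  beta_reduce
  rw [← hc, ← hc', bf, bf, bf, ← Finset.sum_add_distrib]
  exact Finset.sum_congr rfl fun l _ => by ring

lemma Rep.smul {d : ℕ} {F : R → R → R} (hF : Rep d F) (t : R) :
    Rep d fun x y => t * F x y := by
  obtain ⟨c, hc⟩ := hF
  refine ⟨fun l => t * c l, fun x y => ?_⟩
  beta_reduce
  rw [← hc, bf, bf, Finset.mul_sum]
  exact Finset.sum_congr rfl fun l _ => by ring

lemma Rep.zero (d : ℕ) : Rep d fun _ _ : R => (0 : R) :=
  ⟨fun _ => 0, fun x y => by simp [bf]⟩

lemma Rep.one : Rep 0 fun _ _ : R => (1 : R) :=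
  ⟨fun _ => 1, fun x y => by simp [bf]⟩

lemma Rep.sum {d : ℕ} (s : Finset ℕ) {F : ℕ → R → R → R} (hF : ∀ l ∈ s, Rep d (F l)) :
    Rep d fun x y => ∑ l ∈ s, F l x y := by
  classical
  induction s using Finset.induction_on with
  | empty => simpa using Rep.zero d
  | insert l s hl ih =>
    have h := (hF l (Finset.mem_insert_self l s)).add
      (ih fun j hj => hF j (Finset.mem_insert_of_mem hj))
    simpa [Finset.sum_insert hl] using h

lemma Rep.mulX {d : ℕ} {F : R → R → R} (hF : Rep d F) : Rep (d + 1) fun x y => x * F x y := by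
  obtain ⟨c, hc⟩ := hF
  refine ⟨fun l => if l = 0 then 0 else c (l - 1), fun x y => ?_⟩
  beta_reduce
  rw [← hc, bf, bf, Finset.sum_range_succ', Finset.mul_sum]
  simp only [Nat.add_eq_zero_iff, one_ne_zero, and_false, if_false, if_true, zero_mul, add_zero,
    Nat.add_sub_cancel]
  refine Finset.sum_congr rfl fun l _ => ?_
  rw [show d + 1 - (l + 1) = d - l by omega, pow_succ]
  ring

lemma Rep.mulY {d : ℕ} {F : R → R → R} (hF : Rep d F) : Rep (d + 1) fun x y => y * F x y := by
  obtain ⟨c, hc⟩ := hF
  refine ⟨fun l => if l = d + 1 then 0 else c l, fun x y => ?_⟩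
  beta_reduce
  rw [← hc, bf, bf, Finset.sum_range_succ, Finset.mul_sum]
  simp only [if_true, zero_mul, add_zero]
  refine Finset.sum_congr rfl fun l hl => ?_
  have h := Finset.mem_range.1 hl
  rw [if_neg (by omega), show d + 1 - l = d - l + 1 by omega, pow_succ]
  ring

lemma Rep.mulL {d : ℕ} {F : R → R → R} (hF : Rep d F) (a b : R) :
    Rep (d + 1) fun x y => (a * x + b * y) * F x y := by
  have h := (hF.mulX.smul a).add (hF.mulY.smul b)
  have e : (fun x y => (a * x + b * y) * F x y) = fun x y => a * (x * F x y) + b * (y * F x y) := by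
    funext x y
    ring
  rw [e]
  exact h

lemma Rep.powL {d : ℕ} {F : R → R → R} (hF : Rep d F) (a b : R) (m : ℕ) :
    Rep (d + m) fun x y => (a * x + b * y) ^ m * F x y := by
  induction m with
  | zero => simpa using hF
  | succ m ih =>
    have h := ih.mulL a b
    have e : (fun x y => (a * x + b * y) ^ (m + 1) * F x y) =
        fun x y => (a * x + b * y) * ((a * x + b * y) ^ m * F x y) := by
      funext x y
      ring
    rw [e, ← add_assoc]
    exact h

theorem main : St_SUB := by
  intro R _ d c a b c' e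
  have h : Rep d fun x y : R => bf d c (a * x + c' * y) (b * x + e * y) := by
    unfold bf
    refine Rep.sum _ fun l hl => ?_
    have h1 := Finset.mem_range.1 hl
    have h2 := ((Rep.one (R := R).powL b e (d - l)).powL a c' l).smul (c l)
    have e1 : 0 + (d - l) + l = d := by omega
    rw [e1] at h2
    have e2 : (fun x y => c l * (a * x + c' * y) ^ l * (b * x + e * y) ^ (d - l)) =
        fun x y => c l * ((a * x + c' * y) ^ l * ((b * x + e * y) ^ (d - l) * 1)) := by
      funext x y
      ring
    rw [e2]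
    exact h2
  exact h

end Pool.Agent.Helper95.WL.SUB
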