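import Pool.Agent.Helper23.WC.Spec

/-!
WL, part TRF: the finiteness over the projective space holds over all extension fields.
-/

set_option autoImplicit false

namespace Pool.Agent.Helper95.WL.TRF

open MvPolynomial Pool.Agent.Helper23.WC

theorem main : St_TRF := by
  intro K L _ _ _ _ n r s H hH w hw
  classical
  let ψ : MvPolynomial (Fin (n + 1) ⊕ Fin r) K →ₐ[K] MvPolynomial (Fin r) K :=
    aeval (Sum.elim (fun _ => 0) X)
  let J : Ideal (MvPolynomial (Fin r) K) := Ideal.span (Set.range fun j => ψ (H j))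
  have h1 : ∀ (M : Type) [Field M] [Algebra K M] (u : Fin r → M)
      (p : MvPolynomial (Fin (n + 1) ⊕ Fin r) K),
      aeval u (ψ p) = aeval (Sum.elim (0 : Fin (n + 1) → M) u) p := by
    intro M _ _ u p
    have h : (aeval u : MvPolynomial (Fin r) K →ₐ[K] M).comp ψ =
        aeval (Sum.elim (0 : Fin (n + 1) → M) u) := by
      apply MvPolynomial.algHom_ext
      rintro (i | i) <;> simp [ψ]
    rw [← h]
    rfl
  have h2 : ∀ x ∈ MvPolynomial.zeroLocus K J, x = 0 := by
    intro x hx
    apply hH
    intro j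
    have h3 := hx (ψ (H j)) (Ideal.subset_span ⟨j, rfl⟩)
    have h4 := h1 K x (H j)
    rw [h3] at h4
    rw [← MvPolynomial.coe_aeval_eq_eval]
    exact h4.symm
  have h3 : ∀ i, (X i : MvPolynomial (Fin r) K) ∈ J.radical := by
    intro i
    rw [← vanishingIdeal_zeroLocus_eq_radical (K := K) J, mem_vanishingIdeal_iff]
    intro x hx
    rw [h2 x hx]
    simp
  have h4 : ∀ p ∈ J, aeval w p = 0 := by
    intro p hp
    have h5 : J ≤ RingHom.ker (aeval w : MvPolynomial (Fin r) K →ₐ[K] L) := by
      rw [Ideal.span_le]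
      rintro _ ⟨j, rfl⟩
      show aeval w (ψ (H j)) = 0
      rw [h1 L w (H j)]
      have h6 := hw j
      rw [eval_map] at h6
      exact h6
    exact h5 hp
  funext i
  obtain ⟨M, hM⟩ := h3 i
  have h5 := h4 _ hM
  rw [map_pow, aeval_X] at h5
  exact eq_zero_of_pow_eq_zero h5

end Pool.Agent.Helper95.WL.TRF
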