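import Pool.Agent.Helper23.WC.Spec

/-!
WL, part UNI: base change, weighted homogeneity and vanishing on the curve.
-/

set_option autoImplicit false

namespace Pool.Agent.Helper95.WL.UNI

open MvPolynomial Pool.Agent.Helper23.WC

variable {N r s : ℕ}

/-- base change of a binary form -/
lemma map_bfm {R R' : Type} [CommRing R] [CommRing R'] (φ : R →+* R') (d : ℕ) (c : ℕ → R) :
    map φ (bfm (N := N) (r := r) d c) = bfm d fun l => φ (c l) := by
  simp [bfm]

/-- base change of the curve -/
lemma map_crv {R R' : Type} [CommRing R] [CommRing R'] (φ : R →+* R') (e : Fin r → ℕ)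
    (π : TT N r s → R) (v : Fin (N + 1 + 1) ⊕ Fin r) :
    map φ (crv e π v) = crv e (fun t => φ (π t)) v := by
  rcases v with j | i
  · refine Fin.cases ?_ (fun j => ?_) j
    · simp [crv]
    · refine Fin.cases ?_ (fun j => ?_) j
      · simp [crv]
      · simp only [crv, Sum.elim_inl, Fin.cons_succ]
        exact map_bfm φ _ _
  · simp only [crv, Sum.elim_inr]
    exact map_bfm φ _ _

/-- base change of the equations -/
lemma map_Gen0 {R R' : Type} [CommRing R] [CommRing R'] (φ : R →+* R') (e : Fin r → ℕ)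
    (D : Fin s → ℕ) (π : TT N r s → R) (a : Fin s) :
    map φ (Gen0 e D π a) = Gen0 e D (fun t => φ (π t)) a := by
  simp [Gen0, map_monomial]

/-- homogeneous substitutions -/
lemma bind₁_homog {σ τ R : Type} [CommRing R] (w : σ → ℕ) (w' : τ → ℕ)
    (f : σ → MvPolynomial τ R) (hf : ∀ v, IsWeightedHomogeneous w' (f v) (w v))
    (m : σ →₀ ℕ) (c : R) :
    IsWeightedHomogeneous w' (bind₁ f (monomial m c)) (Finsupp.weight w m) := by
  rw [bind₁_monomial]
  refine IsWeightedHomogeneous.C_mul ?_ c
  have h := IsWeightedHomogeneous.prod m.support (fun v => f v ^ m v) (fun v => m v • w v)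
    (w := w') fun v _ => (hf v).pow (m v)
  rw [Finsupp.weight_apply, Finsupp.sum]
  exact h

/-- the binary forms are homogeneous -/
lemma homog_bfm {R : Type} [CommRing R] (e : Fin r → ℕ) (d : ℕ) (c : ℕ → R) :
    IsWeightedHomogeneous (wt (n := N + 1) e) (bfm (N := N) (r := r) d c) d := by
  refine IsWeightedHomogeneous.sum _ _ _ fun l hl => ?_
  have h0 : wt (n := N + 1) e (Sum.inl 0) = 1 := rfl
  have h1 : wt (n := N + 1) e (Sum.inl 1) = 1 := rfl
  have h2 := ((isWeightedHomogeneous_X R (wt (n := N + 1) e) (Sum.inl 0)).pow l).C_mul (c l)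
  have h3 := h2.mul ((isWeightedHomogeneous_X R (wt (n := N + 1) e) (Sum.inl 1)).pow (d - l))
  rw [h0, h1] at h3
  have h4 : l • 1 + (d - l) • 1 = d := by
    have := Finset.mem_range.1 hl
    simp only [smul_eq_mul, mul_one]
    omega
  rw [h4] at h3
  exact h3

/-- the curve is homogeneous -/
lemma homog_crv {R : Type} [CommRing R] (e : Fin r → ℕ) (π : TT N r s → R)
    (v : Fin (N + 1 + 1) ⊕ Fin r) :
    IsWeightedHomogeneous (wt (n := N + 1) e) (crv e π v) (wt (n := N + 1) e v) := by
  rcases v with j | i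
  · refine Fin.cases ?_ (fun j => ?_) j
    · exact isWeightedHomogeneous_X R (wt (n := N + 1) e) (Sum.inl 0)
    · refine Fin.cases ?_ (fun j => ?_) j
      · exact isWeightedHomogeneous_X R (wt (n := N + 1) e) (Sum.inl 1)
      · simp only [crv, Sum.elim_inl, Fin.cons_succ]
        exact homog_bfm e _ _
  · simp only [crv, Sum.elim_inr]
    exact homog_bfm e _ _

/-- the point of the curve -/
lemma eval_crv {R : Type} [CommRing R] (e : Fin r → ℕ) (π : TT N r s → R) (x y : R)
    (v : Fin (N + 1 + 1) ⊕ Fin r) :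
    eval (Sum.elim (fun l => x * lpW π l + y * lqW π l)
        fun i => bf (e i) (fun l => π (.inl (.inr i, l))) x y) (crv e π v) =
      Sum.elim (fun l => x * lpW π l + y * lqW π l)
        (fun i => bf (e i) (fun l => π (.inl (.inr i, l))) x y) v := by
  have h0 : x * lpW π (0 : Fin (N + 1 + 1)) + y * lqW π 0 = x := by simp [lpW, lqW]
  have h1 : x * lpW π (1 : Fin (N + 1 + 1)) + y * lqW π 1 = y := by
    have e1 : (1 : Fin (N + 1 + 1)) = Fin.succ 0 := rfl
    rw [e1]
    simp only [lpW, lqW, Fin.cons_succ, Fin.cons_zero]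
    ring
  have hb : ∀ (d : ℕ) (c : ℕ → R), eval (Sum.elim (fun l => x * lpW π l + y * lqW π l)
      fun i => bf (e i) (fun l => π (.inl (.inr i, l))) x y) (bfm (N := N) (r := r) d c) =
      bf d c x y := by
    intro d c
    simp only [bfm, bf, map_sum, map_mul, map_pow, eval_C, eval_X, Sum.elim_inl, h0, h1]
  rcases v with j | i
  · refine Fin.cases ?_ (fun j => ?_) j
    · simp [crv]
    · refine Fin.cases ?_ (fun j => ?_) j
      · have e1 : (Fin.succ 0 : Fin (N + 1 + 1)) = 1 := rfl
        simp only [crv, Sum.elim_inl, Fin.cons_succ, Fin.cons_zero, eval_X]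
        rw [e1]
      · simp only [crv, Sum.elim_inl, Fin.cons_succ]
        rw [hb, bf, Finset.sum_range_succ, Finset.sum_range_one]
        simp only [lpW, lqW, Fin.cons_succ]
        simp
        ring
  · simp only [crv, Sum.elim_inr]
    exact hb _ _

theorem main (hF : St_FINW) : St_UNI := by
  intro N r s e D he
  refine ⟨?_, ?_, ?_⟩
  · intro R R' _ _ φ π a
    have h := map_Gen0 φ e D π a
    unfold UF
    have h' : (fun v => map φ (crv e π v)) = crv e (fun t => φ (π t)) :=
      funext fun v => map_crv φ e π v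
    rw [map_sub, map_bind₁, h, h']
  · intro R _ π a
    classical
    unfold UF
    have h1 : IsWeightedHomogeneous (wt (n := N + 1) e) (Gen0 e D π a) (D a) := by
      refine IsWeightedHomogeneous.sum _ _ _ fun m hm => ?_
      exact isWeightedHomogeneous_monomial _ _ _
        ((hF (N + 1) r e he (D a) m).1 (Finset.mem_filter.1 hm).1)
    refine h1.sub ?_
    unfold Gen0
    rw [map_sum]
    refine IsWeightedHomogeneous.sum _ _ _ fun m hm => ?_
    have h2 := bind₁_homog (wt (n := N + 1) e) (wt (n := N + 1) e) (crv e π)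
      (homog_crv e π) m (π (.inr (a, m)))
    rw [(hF (N + 1) r e he (D a) m).1 (Finset.mem_filter.1 hm).1] at h2
    exact h2
  · intro R _ π a x y
    unfold UF
    rw [map_sub, sub_eq_zero]
    set pt : Fin (N + 1 + 1) ⊕ Fin r → R := Sum.elim (fun l => x * lpW π l + y * lqW π l)
      fun i => bf (e i) (fun l => π (.inl (.inr i, l))) x y with hpt
    have h1 : eval pt (bind₁ (crv e π) (Gen0 e D π a)) =
        eval (fun v => eval pt (crv e π v)) (Gen0 e D π a) :=
      eval₂Hom_bind₁ (RingHom.id R) pt (crv e π) (Gen0 e D π a)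
    rw [h1]
    congr 2
    funext v
    exact (eval_crv e π x y v).symm

end Pool.Agent.Helper95.WL.UNI
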